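import Pool.Agent.helper60.DA.SpecW

/-!
# Row dw:RV
-/

set_option autoImplicit false

namespace Pool.Agent.helper60.DA

open Polynomial Finset Pool.Agent.helper60.DK

theorem RV_coeff {R : Type*} [CommRing R] (d : ℕ) (f : R[X]) (n : ℕ) :
    (rv d f).coeff n = if n ≤ d then f.coeff (d - n) * 4 ^ n else 0 := by
  unfold rv
  rw [finsetSum_coeff]
  simp only [coeff_C_mul_X_pow]
  by_cases h : n ≤ d
  · rw [if_pos h, Finset.sum_eq_single (d - n)]
    · rw [if_pos (by omega), show d - (d - n) = n by omega]
    · intro i hi hin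
      rw [mem_range] at hi
      rw [if_neg (by omega)]
    · intro hi
      exact absurd (mem_range.2 (by omega)) hi
  · rw [if_neg h]
    refine Finset.sum_eq_zero fun i _ => ?_
    rw [if_neg (by omega)]

theorem RV_Dx_coeff {R : Type*} [CommRing R] (f : R[X]) (n : ℕ) :
    (Dx f).coeff n = (n : R) * f.coeff n := by
  unfold Dx
  cases n with
  | zero => simp
  | succ n =>
    rw [coeff_X_mul, coeff_derivative]
    push_cast
    ring

theorem RV_comp {R : Type*} [CommRing R] (d : ℕ) (f : R[X]) (hf : f.natDegree ≤ d) :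
    rv d f = (reflect d f).comp (C 4 * X) := by
  ext n
  rw [RV_coeff, comp_C_mul_X_coeff, coeff_reflect]
  by_cases h : n ≤ d
  · rw [if_pos h, revAt_le h]
  · rw [if_neg h, revAt_eq_self_of_lt (by omega), coeff_eq_zero_of_natDegree_lt (by omega),
      zero_mul]

theorem RV : RV_stmt := by
  intro R _
  have h4 : (C (4 : R) : R[X]) = 4 := rfl
  have h2 : (C (2 : R) : R[X]) = 2 := rfl
  refine ⟨?_, ?_, ?_, ⟨?_, ?_, ?_, ?_⟩, ?_, ?_⟩
  · intro a b f g hf hg
    rw [RV_comp (a + b) (f * g) (natDegree_mul_le.trans (Nat.add_le_add hf hg)),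
      reflect_mul f g hf hg, mul_comp, ← RV_comp a f hf, ← RV_comp b g hg]
  · intro a f g
    ext n
    rw [coeff_add, RV_coeff, RV_coeff, RV_coeff, coeff_add]
    split_ifs
    · ring
    · ring
  · intro a c f
    ext n
    rw [coeff_C_mul, RV_coeff, RV_coeff, coeff_C_mul]
    split_ifs
    · ring
    · ring
  · unfold rv
    rw [sum_range_succ, sum_range_succ, range_zero, sum_empty]
    simp
  · unfold rv
    rw [sum_range_succ, sum_range_succ, range_zero, sum_empty]
    simp [coeff_one, coeff_X]
    try rw [h4]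
    try rw [h2]
    ring
  · unfold rv
    rw [sum_range_succ, sum_range_succ, range_zero, sum_empty]
    simp [coeff_one, coeff_X]
    try rw [h4]
    try rw [h2]
    ring
  · unfold rv
    rw [sum_range_succ, sum_range_succ, range_zero, sum_empty]
    simp [coeff_one, coeff_X]
    try rw [h4]
    try rw [h2]
    ring
  · intro d f
    ext n
    rw [coeff_sub, coeff_C_mul, RV_Dx_coeff, RV_coeff, RV_coeff, RV_Dx_coeff]
    split_ifs with h
    · rw [Nat.cast_sub h]
      ring
    · ring
  · intro d f
    rw [natDegree_le_iff_coeff_eq_zero]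
    intro n hn
    rw [RV_coeff, if_neg (by omega)]

end Pool.Agent.helper60.DA
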